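import Mathlib

set_option autoImplicit false

open Finset

namespace Pool.Agent.Results.MP_ace2a1_co.Full

/-- `E` is a chain-structured system on `V`: for some cyclic ordering `v` of `V`, every hyperedge
is a nonempty run of cyclically consecutive vertices. -/
def Chain {V : Type} [DecidableEq V] (n : ℕ) (E : Finset (Finset V)) : Prop :=
  ∃ v : ZMod n ≃ V, ∀ e ∈ E, ∃ (i : ZMod n) (l : ℕ), 1 ≤ l ∧ l ≤ n ∧
    e = (range l).image fun j : ℕ => v (i + j)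

/-- Exactly two 2-edges, and all other hyperedges have at least 3 vertices. -/
def TwoEdges {V : Type} (E : Finset (Finset V)) : Prop :=
  #{e ∈ E | #e = 2} = 2 ∧ ∀ e ∈ E, #e ≠ 2 → 3 ≤ #e

def E1 : Finset (Finset (ZMod 6)) := {{0, 1}, {3, 4}, {1, 2, 3}, {4, 5, 0}}

def p : ZMod 6 ≃ ZMod 6 := ⟨![0, 3, 5, 1, 4, 2], ![0, 3, 5, 1, 4, 2], by decide, by decide⟩

theorem result : ∃ (V : Type) (_ : Fintype V) (_ : DecidableEq V) (E F : Finset (Finset V)),
    Chain (Fintype.card V) E ∧ Chain (Fintype.card V) F ∧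
    (∃ σ : V ≃ V, F = E.image fun e => e.image σ) ∧ TwoEdges E ∧ TwoEdges F ∧
    ¬ ∃ A B : Finset V, A ∪ B = univ ∧ (∀ e ∈ E, ¬ e ⊆ A) ∧ ∀ e ∈ F, ¬ e ⊆ B := by
  have h : ∀ e ∈ E1, ∃ i : ZMod 6, ∃ l < 7, 1 ≤ l ∧ l ≤ 6 ∧
      e = (range l).image fun j : ℕ => i + j := by decide
  refine ⟨ZMod 6, inferInstance, inferInstance, E1, E1.image fun e => e.image p,
    ⟨.refl _, fun e he => ?_⟩, ⟨p, fun e he => ?_⟩, ⟨p, rfl⟩, by unfold TwoEdges; decide,
    by unfold TwoEdges; decide, by decide +kernel⟩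
  · obtain ⟨i, l, -, h⟩ := h e he
    exact ⟨i, l, h⟩
  · obtain ⟨e', he', rfl⟩ := mem_image.1 he
    obtain ⟨i, l, -, h1, h2, rfl⟩ := h e' he'
    exact ⟨i, l, h1, h2, by rw [image_image]; rfl⟩

end Pool.Agent.Results.MP_ace2a1_co.Full
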